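import Mathlib

set_option autoImplicit false

/-!
Common definitions for MP_be0db5_co (list packing number of planar triangle-free graphs).
-/

namespace Pool.Agent.Helper60.Pack

/-- `G` has no `K₅` minor (five pairwise disjoint, pairwise adjacent connected branch sets). -/
def NoK5 {V : Type} (G : SimpleGraph V) : Prop :=
  ¬ ∃ f : Fin 5 → Set V,
    (∀ i, (G.induce (f i)).Connected) ∧
    (∀ i j, i ≠ j → Disjoint (f i) (f j)) ∧
    (∀ i j, i ≠ j → ∃ a ∈ f i, ∃ b ∈ f j, G.Adj a b)

/-- `G` has no `K₃,₃` minor. -/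
def NoK33 {V : Type} (G : SimpleGraph V) : Prop :=
  ¬ ∃ f : Bool × Fin 3 → Set V,
    (∀ i, (G.induce (f i)).Connected) ∧
    (∀ i j, i ≠ j → Disjoint (f i) (f j)) ∧
    (∀ i j, i.1 ≠ j.1 → ∃ a ∈ f i, ∃ b ∈ f j, G.Adj a b)

/-- planarity, by Wagner's theorem -/
def Planar {V : Type} (G : SimpleGraph V) : Prop := NoK5 G ∧ NoK33 G

/-- every assignment of lists of size `k` admits `k` pairwise disjoint proper list colourings -/
def Packable {V : Type} (G : SimpleGraph V) (k : ℕ) : Prop :=
  ∀ L : V → Finset ℕ, (∀ v, (L v).card = k) →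
    ∃ c : Fin k → V → ℕ, (∀ i v, c i v ∈ L v) ∧ (∀ i u v, G.Adj u v → c i u ≠ c i v) ∧
      ∀ i j v, i ≠ j → c i v ≠ c j v

/-- the list packing number: the least positive `k` for which `G` is packable -/
noncomputable def listPackingNumber {V : Type} (G : SimpleGraph V) : ℕ :=
  sInf {k | 1 ≤ k ∧ Packable G k}

/-- twice the number of edges inside `S` (number of ordered adjacent pairs) -/
def dIn {V : Type} [DecidableEq V] (G : SimpleGraph V) [DecidableRel G.Adj] (S : Finset V) : ℕ :=
  ((S ×ˢ S).filter (fun p => G.Adj p.1 p.2)).card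

/-- the graph obtained by contracting `v` into `u`, on the vertex set without `v` -/
def contr {V : Type} (G : SimpleGraph V) (u v : V) : SimpleGraph {x : V // x ≠ v} where
  Adj x y := x ≠ y ∧ (G.Adj x y ∨ ((x : V) = u ∧ G.Adj v y) ∨ ((y : V) = u ∧ G.Adj v x))
  symm := ⟨fun x y h => ⟨h.1.symm, by rcases h.2 with h | h | h; exacts [Or.inl h.symm, Or.inr (Or.inr h), Or.inr (Or.inl h)]⟩⟩
  loopless := ⟨fun x h => h.1 rfl⟩

end Pool.Agent.Helper60.Pack
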