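import Mathlib

set_option autoImplicit false
set_option linter.unusedSectionVars false

/-!
Theorem A.  A finite multigraph in which every nonempty vertex set `S` spans at most `2|S| - 2`
edges has a packing for every 4-fold correspondence cover (a bijection for every edge).
-/

namespace Pool.Agent.Helper60.Pack

/-- positions: the affine plane over the field with two elements -/
abbrev Pos := Bool × Bool

/-- the three nonzero functionals -/
def bit : Fin 3 → Pos → Bool
  | 0, p => p.1
  | 1, p => p.2
  | 2, p => xor p.1 p.2

def padd (p q : Pos) : Pos := (xor p.1 q.1, xor p.2 q.2)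

theorem bit_padd : ∀ (t : Fin 3) (p q : Pos), bit t (padd p q) = xor (bit t p) (bit t q) := by
  decide

theorem padd_padd : ∀ (p q : Pos), padd (padd p q) q = p := by
  decide

theorem exists_pos : ∀ (t t' : Fin 3), t ≠ t' → ∀ a b : Bool, ∃ p : Pos, bit t p = a ∧ bit t' p = b := by
  decide

theorem sepAux : ∀ (t : Fin 3) (a b c d : Bool),
    (Finset.univ.filter (fun p : Pos =>
      (cond p.1 (cond p.2 a b) (cond p.2 c d)) = true)).card = 2 →
    ∃ t' : Fin 3, t' ≠ t ∧ ∀ p q : Pos,
      (cond p.1 (cond p.2 a b) (cond p.2 c d)) = (cond q.1 (cond q.2 a b) (cond q.2 c d)) →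
      bit t' p = bit t' q → p = q := by
  decide

theorem sep (t : Fin 3) (F : Pos → Bool)
    (h : (Finset.univ.filter (fun p : Pos => F p = true)).card = 2) :
    ∃ t' : Fin 3, t' ≠ t ∧ ∀ p q : Pos, F p = F q → bit t' p = bit t' q → p = q := by
  have e : F = fun p => (cond p.1 (cond p.2 (F (true,true)) (F (true,false)))
      (cond p.2 (F (false,true)) (F (false,false)))) := by
    funext p; rcases p with ⟨a, b⟩; cases a <;> cases b <;> rfl
  rw [e] at h ⊢
  exact sepAux t _ _ _ _ h

theorem cardbit : ∀ t : Fin 3, (Finset.univ.filter (fun p : Pos => bit t p = true)).card = 2 := by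
  decide

/-- the key choice: given two bijections and a pairing number `t`, there is a bijection agreeing with
the first in bit `t` and with the second in some other bit. -/
theorem key (y z : Fin 4 ≃ Pos) (t : Fin 3) :
    ∃ t' : Fin 3, t' ≠ t ∧ ∃ x : Fin 4 ≃ Pos,
      (∀ c, bit t (x c) = bit t (y c)) ∧ (∀ c, bit t' (x c) = bit t' (z c)) := by
  classical
  have hF : (Finset.univ.filter (fun p : Pos => bit t (y (z.symm p)) = true)).card = 2 := by
    rw [← cardbit t]
    refine Finset.card_bij (fun p _ => y (z.symm p)) ?_ ?_ ?_
    · intro p hp; simpa using hp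
    · intro p _ q _ h; exact z.symm.injective (y.injective h)
    · intro q hq
      refine ⟨z (y.symm q), ?_, ?_⟩
      · simpa using hq
      · simp
  obtain ⟨t', ht', hs⟩ := sep t (fun p => bit t (y (z.symm p))) hF
  refine ⟨t', ht', ?_⟩
  choose g hg1 hg2 using fun c : Fin 4 => exists_pos t t' (Ne.symm ht') (bit t (y c)) (bit t' (z c))
  have ginj : Function.Injective g := by
    intro c c' h
    have h1 : bit t (y c) = bit t (y c') := by rw [← hg1 c, ← hg1 c', h]
    have h2 : bit t' (z c) = bit t' (z c') := by rw [← hg2 c, ← hg2 c', h]
    have := hs (z c) (z c') (by simpa using h1) h2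
    exact z.injective this
  have gbij : Function.Bijective g := by
    rw [Fintype.bijective_iff_injective_and_card]
    exact ⟨ginj, by simp⟩
  exact ⟨Equiv.ofBijective g gbij, fun c => hg1 c, fun c => hg2 c⟩

variable {V ι : Type*} [DecidableEq V] [DecidableEq ι]

/-- the inductive conclusion -/
def Good (A : Finset ι) (s t : ι → V) (σ : ι → Equiv.Perm (Fin 4)) : Prop :=
  ∃ (x : V → Fin 4 ≃ Pos) (τ : ι → Fin 3) (k : ι → Bool),
    (∀ i ∈ A, ∀ c, bit (τ i) (x (s i) (σ i c)) = xor (bit (τ i) (x (t i) c)) (k i)) ∧
    ∀ r : ι → Bool, ∃ β : V → Pos, ∀ i ∈ A, xor (bit (τ i) (β (s i))) (bit (τ i) (β (t i))) = r i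

/-- edges inside `S` -/
def ins (A : Finset ι) (s t : ι → V) (S : Finset V) : Finset ι :=
  A.filter (fun i => s i ∈ S ∧ t i ∈ S)

/-- the sparsity count -/
def Sparse (W : Finset V) (A : Finset ι) (s t : ι → V) : Prop :=
  ∀ S, S ⊆ W → S.Nonempty → (ins A s t S).card + 2 ≤ 2 * S.card

theorem good_flip (A : Finset ι) (s t : ι → V) (σ : ι → Equiv.Perm (Fin 4)) (b : ι → Prop)
    [DecidablePred b]
    (h : Good A (fun i => if b i then t i else s i) (fun i => if b i then s i else t i)
      (fun i => if b i then (σ i).symm else σ i)) : Good A s t σ := by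
  obtain ⟨x, τ, k, h1, h2⟩ := h
  refine ⟨x, τ, k, ?_, ?_⟩
  · intro i hi c
    by_cases hb : b i
    · have := h1 i hi (σ i c)
      simp only [hb, if_true, Equiv.symm_apply_apply] at this
      rw [this]; simp
    · have := h1 i hi c
      simpa only [hb, if_false] using this
  · intro r
    obtain ⟨β, hβ⟩ := h2 r
    refine ⟨β, fun i hi => ?_⟩
    have := hβ i hi
    by_cases hb : b i
    · simp only [hb, if_true] at this
      rw [← this, Bool.xor_comm]
    · simpa only [hb, if_false] using this

theorem sparse_flip (W : Finset V) (A : Finset ι) (s t : ι → V) (b : ι → Prop) [DecidablePred b]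
    (h : Sparse W A s t) :
    Sparse W A (fun i => if b i then t i else s i) (fun i => if b i then s i else t i) := by
  intro S hS hne
  have := h S hS hne
  have e : ins A (fun i => if b i then t i else s i) (fun i => if b i then s i else t i) S
      = ins A s t S := by
    ext i
    simp only [ins, Finset.mem_filter]
    by_cases hb : b i
    · simp only [hb, if_true]; tauto
    · simp only [hb, if_false]
  rw [e]; exact this

/-- adding a vertex with at most two edges -/
theorem good_two (A A0 : Finset ι) (s t : ι → V) (σ : ι → Equiv.Perm (Fin 4)) (v : V) (a b : ι)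
    (h0 : ∀ i ∈ A0, s i ≠ v ∧ t i ≠ v)
    (hA : ∀ i ∈ A, i ∈ A0 ∨ i = a ∨ i = b)
    (ha : s a = v ∧ t a ≠ v) (hb : s b = v ∧ t b ≠ v)
    (h : Good A0 s t σ) : Good A s t σ := by
  obtain ⟨x, τ, k, h1, h2⟩ := h
  have hna : a ∉ A0 := fun h => (h0 a h).1 ha.1
  have hnb : b ∉ A0 := fun h => (h0 b h).1 hb.1
  obtain ⟨t', ht', xv, hx1, hx2⟩ := key ((σ a).symm.trans (x (t a))) ((σ b).symm.trans (x (t b))) 0
  refine ⟨Function.update x v xv, Function.update (Function.update τ a 0) b t',
    Function.update (Function.update k a false) b false, ?_, ?_⟩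
  · intro i hi c
    rcases hA i hi with hi0 | hi0
    · have hia : i ≠ a := fun h => hna (h ▸ hi0)
      have hib : i ≠ b := fun h => hnb (h ▸ hi0)
      have := h1 i hi0 c
      rw [Function.update_of_ne (h0 i hi0).1, Function.update_of_ne (h0 i hi0).2,
        Function.update_of_ne hib, Function.update_of_ne hia, Function.update_of_ne hib,
        Function.update_of_ne hia]
      exact this
    · by_cases hib : i = b
      · subst hib
        rw [hb.1, Function.update_self, Function.update_self, Function.update_self,
          Function.update_of_ne hb.2]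
        have := hx2 (σ i c)
        simp only [Equiv.trans_apply, Equiv.symm_apply_apply] at this
        rw [this]; simp
      · have hia : i = a := by tauto
        subst hia
        rw [ha.1, Function.update_self, Function.update_of_ne hib, Function.update_self,
          Function.update_of_ne ha.2, Function.update_of_ne hib, Function.update_self]
        have := hx1 (σ i c)
        simp only [Equiv.trans_apply, Equiv.symm_apply_apply] at this
        rw [this]; simp
  · intro r
    obtain ⟨β, hβ⟩ := h2 r
    obtain ⟨p, hp1, hp2⟩ := exists_pos 0 t' (Ne.symm ht') (xor (r a) (bit 0 (β (t a))))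
      (xor (r b) (bit t' (β (t b))))
    refine ⟨Function.update β v p, ?_⟩
    intro i hi
    rcases hA i hi with hi0 | hi0
    · have hia : i ≠ a := fun h => hna (h ▸ hi0)
      have hib : i ≠ b := fun h => hnb (h ▸ hi0)
      rw [Function.update_of_ne (h0 i hi0).1, Function.update_of_ne (h0 i hi0).2,
        Function.update_of_ne hib, Function.update_of_ne hia]
      exact hβ i hi0
    · by_cases hib : i = b
      · subst hib
        rw [hb.1, Function.update_self, Function.update_self, Function.update_of_ne hb.2, hp2]
        simp
      · have hia : i = a := by tauto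
        subst hia
        rw [ha.1, Function.update_self, Function.update_of_ne hib, Function.update_self,
          Function.update_of_ne ha.2, hp1]
        simp

/-- adding a vertex with three edges -/
theorem good_three (A A0 : Finset ι) (s t : ι → V) (σ : ι → Equiv.Perm (Fin 4)) (v : V) (a b c : ι)
    (hab : a ≠ b) (hac : a ≠ c) (hbc : b ≠ c)
    (h0 : ∀ i ∈ A0, s i ≠ v ∧ t i ≠ v)
    (hA : ∀ i ∈ A, i ∈ A0 ∨ i = a ∨ i = b ∨ i = c)
    (ha : s a = v ∧ t a ≠ v) (hb : s b = v ∧ t b ≠ v) (hc : s c = v ∧ t c ≠ v)
    (h : Good (insert a A0) (Function.update s a (t a)) (Function.update t a (t b))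
      (Function.update σ a ((σ b).trans (σ a).symm))) : Good A s t σ := by
  obtain ⟨x, τ, k, h1, h2⟩ := h
  have hna : a ∉ A0 := fun h => (h0 a h).1 ha.1
  have hnb : b ∉ A0 := fun h => (h0 b h).1 hb.1
  have hnc : c ∉ A0 := fun h => (h0 c h).1 hc.1
  obtain ⟨t', ht', xv, hx1, hx2⟩ :=
    key ((σ a).symm.trans (x (t a))) ((σ c).symm.trans (x (t c))) (τ a)
  have hedge : ∀ d, bit (τ a) (x (t a) ((σ a).symm d)) =
      xor (bit (τ a) (x (t b) ((σ b).symm d))) (k a) := by
    intro d
    have := h1 a (Finset.mem_insert_self _ _) ((σ b).symm d)
    simpa only [Function.update_self, Equiv.trans_apply, Equiv.apply_symm_apply] using this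
  refine ⟨Function.update x v xv, Function.update (Function.update τ b (τ a)) c t',
    Function.update (Function.update (Function.update k b (k a)) c false) a false, ?_, ?_⟩
  · intro i hi d
    rcases hA i hi with hi0 | hi0 | hi0 | hi0
    · have hia : i ≠ a := fun h => hna (h ▸ hi0)
      have hib : i ≠ b := fun h => hnb (h ▸ hi0)
      have hic : i ≠ c := fun h => hnc (h ▸ hi0)
      have := h1 i (Finset.mem_insert_of_mem hi0) d
      rw [Function.update_of_ne hia, Function.update_of_ne hia, Function.update_of_ne hia] at this
      rw [Function.update_of_ne (h0 i hi0).1, Function.update_of_ne (h0 i hi0).2,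
        Function.update_of_ne hic, Function.update_of_ne hib, Function.update_of_ne hia,
        Function.update_of_ne hic, Function.update_of_ne hib]
      exact this
    · subst hi0
      rw [ha.1, Function.update_self, Function.update_of_ne hac, Function.update_of_ne hab,
        Function.update_of_ne ha.2, Function.update_self]
      have := hx1 (σ i d)
      simp only [Equiv.trans_apply, Equiv.symm_apply_apply] at this
      rw [this]; simp
    · subst hi0
      rw [hb.1, Function.update_self, Function.update_of_ne hbc, Function.update_self,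
        Function.update_of_ne hb.2, Function.update_of_ne hab.symm, Function.update_of_ne hbc,
        Function.update_self]
      have e1 := hx1 (σ i d)
      have e2 := hedge (σ i d)
      simp only [Equiv.trans_apply, Equiv.symm_apply_apply] at e1 e2
      rw [e1, e2]
    · subst hi0
      rw [hc.1, Function.update_self, Function.update_self, Function.update_of_ne hc.2,
        Function.update_of_ne hac.symm, Function.update_self]
      have := hx2 (σ i d)
      simp only [Equiv.trans_apply, Equiv.symm_apply_apply] at this
      rw [this]; simp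
  · intro r
    obtain ⟨β, hβ⟩ := h2 (Function.update r a (xor (r a) (r b)))
    obtain ⟨p, hp1, hp2⟩ := exists_pos (τ a) t' (Ne.symm ht') (xor (r a) (bit (τ a) (β (t a))))
      (xor (r c) (bit t' (β (t c))))
    have hba := hβ a (Finset.mem_insert_self _ _)
    simp only [Function.update_self] at hba
    refine ⟨Function.update β v p, ?_⟩
    intro i hi
    rcases hA i hi with hi0 | hi0 | hi0 | hi0
    · have hia : i ≠ a := fun h => hna (h ▸ hi0)
      have hib : i ≠ b := fun h => hnb (h ▸ hi0)
      have hic : i ≠ c := fun h => hnc (h ▸ hi0)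
      have := hβ i (Finset.mem_insert_of_mem hi0)
      rw [Function.update_of_ne hia, Function.update_of_ne hia, Function.update_of_ne hia] at this
      rw [Function.update_of_ne (h0 i hi0).1, Function.update_of_ne (h0 i hi0).2,
        Function.update_of_ne hic, Function.update_of_ne hib]
      exact this
    · subst hi0
      rw [ha.1, Function.update_self, Function.update_of_ne hac, Function.update_of_ne hab,
        Function.update_of_ne ha.2, hp1]
      simp
    · subst hi0
      rw [hb.1, Function.update_self, Function.update_of_ne hbc, Function.update_self,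
        Function.update_of_ne hb.2, hp1]
      revert hba
      generalize bit (τ a) (β (t a)) = u
      generalize bit (τ a) (β (t i)) = w
      generalize r a = ra
      generalize r i = ri
      revert u w ra ri
      decide
    · subst hi0
      rw [hc.1, Function.update_self, Function.update_self, Function.update_of_ne hc.2, hp2]
      simp

theorem ins_union_inter (A : Finset ι) (s t : ι → V) (S T : Finset V) :
    (ins A s t S).card + (ins A s t T).card ≤
      (ins A s t (S ∪ T)).card + (ins A s t (S ∩ T)).card := by
  have h1 : ins A s t S ∪ ins A s t T ⊆ ins A s t (S ∪ T) := by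
    intro i hi
    simp only [ins, Finset.mem_union, Finset.mem_filter] at hi ⊢
    tauto
  have h2 : ins A s t S ∩ ins A s t T = ins A s t (S ∩ T) := by
    ext i
    simp only [ins, Finset.mem_inter, Finset.mem_filter]
    tauto
  have h3 := Finset.card_union_add_card_inter (ins A s t S) (ins A s t T)
  have h4 := Finset.card_le_card h1
  rw [h2] at h3
  omega

theorem exists_small (W : Finset V) (A : Finset ι) (s t : ι → V) (hW : W.Nonempty)
    (hA : ∀ i ∈ A, s i ∈ W ∧ t i ∈ W) (hsp : Sparse W A s t) :
    ∃ v ∈ W, (A.filter (fun i => s i = v ∨ t i = v)).card ≤ 3 := by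
  by_contra hcon
  push Not at hcon
  have h1 : ∑ v ∈ W, 4 ≤ ∑ v ∈ W, (A.filter (fun i => s i = v ∨ t i = v)).card :=
    Finset.sum_le_sum (fun v hv => hcon v hv)
  have h2 : ∑ v ∈ W, (A.filter (fun i => s i = v ∨ t i = v)).card
      = ∑ i ∈ A, (W.filter (fun v => s i = v ∨ t i = v)).card := by
    simp only [Finset.card_filter]
    exact Finset.sum_comm
  have h3 : ∑ i ∈ A, (W.filter (fun v => s i = v ∨ t i = v)).card ≤ ∑ i ∈ A, 2 := by
    refine Finset.sum_le_sum (fun i _ => ?_)
    have : W.filter (fun v => s i = v ∨ t i = v) ⊆ {s i, t i} := by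
      intro v hv
      simp only [Finset.mem_filter] at hv
      simp only [Finset.mem_insert, Finset.mem_singleton]
      rcases hv.2 with h | h
      · exact Or.inl h.symm
      · exact Or.inr h.symm
    exact (Finset.card_le_card this).trans Finset.card_le_two
  have h4 : ins A s t W = A := by
    ext i
    simp only [ins, Finset.mem_filter]
    exact ⟨fun h => h.1, fun h => ⟨h, hA i h⟩⟩
  have h5 := hsp W subset_rfl hW
  rw [h4] at h5
  simp only [Finset.sum_const, smul_eq_mul] at h1 h2 h3
  omega

theorem card_le_three_cases (D : Finset ι) (h : D.card ≤ 3) :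
    (D = ∅) ∨ (∃ a b, a ∈ D ∧ b ∈ D ∧ ∀ i ∈ D, i = a ∨ i = b) ∨
    (∃ a b c, a ≠ b ∧ a ≠ c ∧ b ≠ c ∧ D = {a, b, c}) := by
  rcases Nat.lt_or_ge D.card 3 with h1 | h1
  · rcases D.eq_empty_or_nonempty with h2 | ⟨a, ha⟩
    · exact Or.inl h2
    · right; left
      have h3 : (D.erase a).card ≤ 1 := by rw [Finset.card_erase_of_mem ha]; omega
      rcases (D.erase a).eq_empty_or_nonempty with h4 | ⟨b, hb⟩
      · refine ⟨a, a, ha, ha, fun i hi => ?_⟩
        by_contra hne
        have : i ∈ D.erase a := Finset.mem_erase.2 ⟨fun h => hne (Or.inl h), hi⟩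
        rw [h4] at this; simp at this
      · refine ⟨a, b, ha, Finset.mem_of_mem_erase hb, fun i hi => ?_⟩
        by_cases hia : i = a
        · exact Or.inl hia
        · right
          exact Finset.card_le_one.1 h3 i (Finset.mem_erase.2 ⟨hia, hi⟩) b hb
  · right; right
    have h2 : D.card = 3 := le_antisymm h h1
    obtain ⟨a, b, c, h3, h4, h5, h6⟩ := Finset.card_eq_three.1 h2
    exact ⟨a, b, c, h3, h4, h5, h6⟩

theorem good_main : ∀ (n : ℕ) (W : Finset V) (A : Finset ι) (s t : ι → V)
    (σ : ι → Equiv.Perm (Fin 4)), W.card = n → (∀ i ∈ A, s i ∈ W ∧ t i ∈ W) → Sparse W A s t →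
    Good A s t σ := by
  intro n
  induction n with
  | zero =>
    intro W A s t σ hW hA hsp
    have hW0 : W = ∅ := Finset.card_eq_zero.1 hW
    have hA0 : A = ∅ := by
      rw [Finset.eq_empty_iff_forall_notMem]
      intro i hi
      have := (hA i hi).1
      rw [hW0] at this; simp at this
    subst hA0
    refine ⟨fun _ => (Fintype.equivOfCardEq (by simp)), fun _ => 0, fun _ => false, ?_, ?_⟩
    · intro i hi; simp at hi
    · intro r; exact ⟨fun _ => (false, false), fun i hi => by simp at hi⟩
  | succ n ih =>
    intro W A s0 t0 σ0 hW hA0' hsp0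
    have hne : W.Nonempty := by rw [← Finset.card_pos]; omega
    obtain ⟨v, hv, hdeg0⟩ := exists_small W A s0 t0 hne hA0' hsp0
    -- normalise the edges at v
    refine good_flip A s0 t0 σ0 (fun i => t0 i = v) ?_
    set s : ι → V := fun i => if t0 i = v then t0 i else s0 i with hs
    set t : ι → V := fun i => if t0 i = v then s0 i else t0 i with ht
    set σ : ι → Equiv.Perm (Fin 4) := fun i => if t0 i = v then (σ0 i).symm else σ0 i with hσ
    have hsp : Sparse W A s t := sparse_flip W A s0 t0 (fun i => t0 i = v) hsp0
    have hA : ∀ i ∈ A, s i ∈ W ∧ t i ∈ W := by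
      intro i hi
      have := hA0' i hi
      by_cases h : t0 i = v
      · simp only [hs, ht, h, if_true]; rw [h] at this; exact ⟨this.2, this.1⟩
      · simp only [hs, ht, h, if_false]; exact this
    -- no loops
    have hloop : ∀ i ∈ A, s i ≠ t i := by
      intro i hi h
      have h1 := hsp {s i} (Finset.singleton_subset_iff.2 (hA i hi).1) (Finset.singleton_nonempty _)
      have h2 : i ∈ ins A s t {s i} :=
        Finset.mem_filter.2 ⟨hi, Finset.mem_singleton_self _, Finset.mem_singleton.2 h.symm⟩
      have h3 : 0 < (ins A s t {s i}).card := Finset.card_pos.2 ⟨i, h2⟩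
      simp only [Finset.card_singleton] at h1
      omega
    have htv : ∀ i ∈ A, t i ≠ v := by
      intro i hi h
      have hl := hloop i hi
      by_cases h' : t0 i = v
      · have e1 : s i = v := by simp only [hs, h', if_true]
        exact hl (e1.trans h.symm)
      · apply h'
        have e1 : t i = t0 i := by simp only [ht, h', if_false]
        rw [← e1]; exact h
    set D : Finset ι := A.filter (fun i => s i = v) with hD
    set A0 : Finset ι := A.filter (fun i => s i ≠ v) with hA0
    have hDcard : D.card ≤ 3 := by
      refine le_trans (Finset.card_le_card ?_) hdeg0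
      intro i hi
      simp only [hD, Finset.mem_filter] at hi
      simp only [Finset.mem_filter]
      refine ⟨hi.1, ?_⟩
      by_cases h' : t0 i = v
      · exact Or.inr h'
      · left
        have := hi.2
        simp only [hs, h', if_false] at this
        exact this
    have hDA : ∀ i ∈ D, i ∈ A ∧ s i = v := fun i hi => by simpa [hD] using hi
    have hD' : ∀ i ∈ D, s i = v ∧ t i ≠ v := fun i hi => ⟨(hDA i hi).2, htv i (hDA i hi).1⟩
    have h0 : ∀ i ∈ A0, s i ≠ v ∧ t i ≠ v := by
      intro i hi
      simp only [hA0, Finset.mem_filter] at hi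
      exact ⟨hi.2, htv i hi.1⟩
    have hA0A : ∀ i ∈ A0, i ∈ A := fun i hi => by
      simp only [hA0, Finset.mem_filter] at hi; exact hi.1
    have hsplit : ∀ i ∈ A, i ∈ A0 ∨ i ∈ D := by
      intro i hi
      by_cases h : s i = v
      · right; simp only [hD, Finset.mem_filter]; exact ⟨hi, h⟩
      · left; simp only [hA0, Finset.mem_filter]; exact ⟨hi, h⟩
    have hW0 : (W.erase v).card = n := by rw [Finset.card_erase_of_mem hv]; omega
    have hA0W : ∀ i ∈ A0, s i ∈ W.erase v ∧ t i ∈ W.erase v := by
      intro i hi
      have := hA i (hA0A i hi)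
      have h' := h0 i hi
      exact ⟨Finset.mem_erase.2 ⟨h'.1, this.1⟩, Finset.mem_erase.2 ⟨h'.2, this.2⟩⟩
    have hsp1 : Sparse (W.erase v) A0 s t := by
      intro S hS hSne
      have h1 := hsp S (hS.trans (Finset.erase_subset _ _)) hSne
      have h2 : (ins A0 s t S).card ≤ (ins A s t S).card := by
        refine Finset.card_le_card ?_
        intro i hi
        simp only [ins, Finset.mem_filter] at hi ⊢
        exact ⟨hA0A i hi.1, hi.2⟩
      omega
    rcases card_le_three_cases D hDcard with hDe | ⟨a, b, ha, hb, hab⟩ | ⟨a, b, c, hab, hac, hbc, hDabc⟩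
    · have : A = A0 := by
        ext i
        refine ⟨fun hi => ?_, fun hi => hA0A i hi⟩
        rcases hsplit i hi with h | h
        · exact h
        · rw [hDe] at h; simp at h
      rw [this]
      exact ih (W.erase v) A0 s t σ hW0 hA0W hsp1
    · refine good_two A A0 s t σ v a b h0 ?_ (hD' a ha) (hD' b hb)
        (ih (W.erase v) A0 s t σ hW0 hA0W hsp1)
      intro i hi
      rcases hsplit i hi with h | h
      · exact Or.inl h
      · exact Or.inr (hab i h)
    · -- three edges
      have haD : a ∈ D := by rw [hDabc]; simp
      have hbD : b ∈ D := by rw [hDabc]; simp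
      have hcD : c ∈ D := by rw [hDabc]; simp
      -- the step, once the pair (a,b) is admissible
      have step : ∀ a b c : ι, a ≠ b → a ≠ c → b ≠ c → a ∈ D → b ∈ D → c ∈ D →
          (∀ i ∈ D, i = a ∨ i = b ∨ i = c) →
          (∀ S, S ⊆ W.erase v → t a ∈ S → t b ∈ S → (ins A0 s t S).card + 3 ≤ 2 * S.card) →
          Good A s t σ := by
        intro a b c hab hac hbc haD hbD hcD hcov hadm
        refine good_three A A0 s t σ v a b c hab hac hbc h0 ?_ (hD' a haD) (hD' b hbD)
          (hD' c hcD) ?_
        · intro i hi
          rcases hsplit i hi with h | h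
          · exact Or.inl h
          · exact Or.inr (hcov i h)
        · have hna : a ∉ A0 := fun h => (h0 a h).1 (hD' a haD).1
          have hta : t a ∈ W.erase v := Finset.mem_erase.2 ⟨(hD' a haD).2, (hA a (hDA a haD).1).2⟩
          have htb : t b ∈ W.erase v := Finset.mem_erase.2 ⟨(hD' b hbD).2, (hA b (hDA b hbD).1).2⟩
          refine ih (W.erase v) (insert a A0) _ _ _ hW0 ?_ ?_
          · intro i hi
            by_cases hia : i = a
            · subst hia
              rw [Function.update_self, Function.update_self]
              exact ⟨hta, htb⟩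
            · rw [Function.update_of_ne hia, Function.update_of_ne hia]
              exact hA0W i (by simpa [hia] using hi)
          · intro S hS hSne
            have hsub : ins (insert a A0) (Function.update s a (t a)) (Function.update t a (t b)) S
                ⊆ (if t a ∈ S ∧ t b ∈ S then insert a (ins A0 s t S) else ins A0 s t S) := by
              intro i hi
              simp only [ins, Finset.mem_filter, Finset.mem_insert] at hi
              by_cases hia : i = a
              · subst hia
                rw [Function.update_self, Function.update_self] at hi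
                rw [if_pos hi.2]
                exact Finset.mem_insert_self _ _
              · rw [Function.update_of_ne hia, Function.update_of_ne hia] at hi
                have hi' : i ∈ ins A0 s t S := by
                  simp only [ins, Finset.mem_filter]
                  exact ⟨by tauto, hi.2⟩
                split_ifs
                · exact Finset.mem_insert_of_mem hi'
                · exact hi'
            have h1 := Finset.card_le_card hsub
            by_cases hif : t a ∈ S ∧ t b ∈ S
            · rw [if_pos hif] at h1
              have h2 := hadm S hS hif.1 hif.2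
              have h3 := Finset.card_insert_le a (ins A0 s t S)
              omega
            · rw [if_neg hif] at h1
              have h2 := hsp1 S hS hSne
              omega
      by_cases hadm : ∀ S, S ⊆ W.erase v → t a ∈ S → t b ∈ S →
          (ins A0 s t S).card + 3 ≤ 2 * S.card
      · refine step a b c hab hac hbc haD hbD hcD ?_ hadm
        intro i hi
        rw [hDabc] at hi
        simpa using hi
      · push Not at hadm
        obtain ⟨S1, hS1, ha1, hb1, hc1⟩ := hadm
        refine step b c a hbc hab.symm hac.symm hbD hcD haD ?_ ?_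
        · intro i hi
          rw [hDabc] at hi
          simp only [Finset.mem_insert, Finset.mem_singleton] at hi
          tauto
        · intro S2 hS2 hb2 hc2
          by_contra hlt
          push Not at hlt
          have hun : S1 ∪ S2 ⊆ W.erase v := Finset.union_subset hS1 hS2
          have hint : (S1 ∩ S2) ⊆ W.erase v := Finset.inter_subset_left.trans hS1
          have hintne : (S1 ∩ S2).Nonempty := ⟨t b, Finset.mem_inter.2 ⟨hb1, hb2⟩⟩
          have h1 := ins_union_inter A0 s t S1 S2
          have h2 := hsp1 _ hint hintne
          have h3 := Finset.card_union_add_card_inter S1 S2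
          -- the set together with v
          have hvS : v ∉ S1 ∪ S2 := fun h => (Finset.mem_erase.1 (hun h)).1 rfl
          have h4 : (insert v (S1 ∪ S2)).card = (S1 ∪ S2).card + 1 := Finset.card_insert_of_notMem hvS
          have h5 := hsp (insert v (S1 ∪ S2))
            (Finset.insert_subset hv (hun.trans (Finset.erase_subset _ _)))
            (Finset.insert_nonempty _ _)
          have h6 : (ins A0 s t (S1 ∪ S2)) ∪ {a, b, c} ⊆ ins A s t (insert v (S1 ∪ S2)) := by
            intro i hi
            simp only [Finset.mem_union, Finset.mem_insert, Finset.mem_singleton] at hi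
            simp only [ins, Finset.mem_filter, Finset.mem_insert, Finset.mem_union]
            rcases hi with hi | hi | hi | hi
            · simp only [ins, Finset.mem_filter, Finset.mem_union] at hi
              exact ⟨hA0A i hi.1, Or.inr hi.2.1, Or.inr hi.2.2⟩
            · subst hi
              exact ⟨(hDA i haD).1, Or.inl (hDA i haD).2, Or.inr (Or.inl ha1)⟩
            · subst hi
              exact ⟨(hDA i hbD).1, Or.inl (hDA i hbD).2, Or.inr (Or.inl hb1)⟩
            · subst hi
              exact ⟨(hDA i hcD).1, Or.inl (hDA i hcD).2, Or.inr (Or.inr hc2)⟩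
          have h7 : ((ins A0 s t (S1 ∪ S2)) ∪ {a, b, c}).card = (ins A0 s t (S1 ∪ S2)).card + 3 := by
            rw [Finset.card_union_of_disjoint, Finset.card_eq_three.2 ⟨a, b, c, hab, hac, hbc, rfl⟩]
            rw [Finset.disjoint_left]
            intro i hi hi'
            have hi0 : i ∈ A0 := by simp only [ins, Finset.mem_filter] at hi; exact hi.1
            have := (h0 i hi0).1
            simp only [Finset.mem_insert, Finset.mem_singleton] at hi'
            rcases hi' with h | h | h
            · exact this (h ▸ (hDA a haD).2)
            · exact this (h ▸ (hDA b hbD).2)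
            · exact this (h ▸ (hDA c hcD).2)
          have h8 := Finset.card_le_card h6
          omega

/-- Theorem A. -/
theorem packing [Fintype V] [Fintype ι] (s t : ι → V) (σ : ι → Equiv.Perm (Fin 4))
    (hsp : ∀ S : Finset V, S.Nonempty →
      (Finset.univ.filter (fun i : ι => s i ∈ S ∧ t i ∈ S)).card + 2 ≤ 2 * S.card) :
    ∃ x : V → Fin 4 ≃ Pos, ∀ i c, x (s i) (σ i c) ≠ x (t i) c := by
  obtain ⟨x, τ, k, h1, h2⟩ := good_main (Finset.univ : Finset V).card Finset.univ
    (Finset.univ : Finset ι) s t σ rfl (fun i _ => ⟨Finset.mem_univ _, Finset.mem_univ _⟩)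
    (fun S _ hne => hsp S hne)
  obtain ⟨β, hβ⟩ := h2 (fun i => !(k i))
  have hinj : ∀ v, Function.Bijective (fun c => padd (x v c) (β v)) := by
    intro v
    rw [Fintype.bijective_iff_injective_and_card]
    refine ⟨fun c c' h => ?_, by simp⟩
    apply (x v).injective
    have := congrArg (fun q => padd q (β v)) h
    simpa only [padd_padd] using this
  refine ⟨fun v => Equiv.ofBijective _ (hinj v), fun i c heq => ?_⟩
  have e1 := h1 i (Finset.mem_univ _) c
  have e2 := hβ i (Finset.mem_univ _)
  have e3 : bit (τ i) (padd (x (s i) (σ i c)) (β (s i))) = bit (τ i) (padd (x (t i) c) (β (t i))) :=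
    congrArg (bit (τ i)) heq
  rw [bit_padd, bit_padd, e1] at e3
  revert e2 e3
  generalize bit (τ i) (x (t i) c) = p
  generalize bit (τ i) (β (s i)) = q
  generalize bit (τ i) (β (t i)) = r
  generalize k i = ki
  revert p q r ki
  decide

end Pool.Agent.Helper60.Pack
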