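import Mathlib
import Pool.Agent.Helper60.Pack.Defs

set_option autoImplicit false
set_option linter.unusedSectionVars false

/-!
Dual certificates: a multigraph with an abstract (algebraic) dual has no `K₅` and no `K₃,₃` minor.
-/

namespace Pool.Agent.Helper60.Pack

open Finset

section Basic
variable {V E : Type} [Fintype E] [DecidableEq V]

/-- the boundary of a `ZMod 2` chain -/
def bd (s t : E → V) (z : E → ZMod 2) (v : V) : ZMod 2 :=
  ∑ e, (if s e = v then z e else 0) + ∑ e, (if t e = v then z e else 0)

theorem bd_add (s t : E → V) (z w : E → ZMod 2) (v : V) :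
    bd s t (fun e => z e + w e) v = bd s t z v + bd s t w v := by
  unfold bd
  have h1 : ∀ e, (if s e = v then z e + w e else 0)
      = (if s e = v then z e else 0) + (if s e = v then w e else 0) := by
    intro e; split_ifs <;> simp
  have h2 : ∀ e, (if t e = v then z e + w e else 0)
      = (if t e = v then z e else 0) + (if t e = v then w e else 0) := by
    intro e; split_ifs <;> simp
  simp only [h1, h2, Finset.sum_add_distrib]
  ring

theorem bd_zero (s t : E → V) (v : V) : bd s t (fun _ => 0) v = 0 := by
  unfold bd; simp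

theorem bd_sum {ι : Type} (s t : E → V) (S : Finset ι) (z : ι → E → ZMod 2) (v : V) :
    bd s t (fun e => ∑ i ∈ S, z i e) v = ∑ i ∈ S, bd s t (z i) v := by
  classical
  induction S using Finset.induction_on with
  | empty => simp only [Finset.sum_empty]; exact bd_zero s t v
  | insert a S ha ih =>
    simp only [Finset.sum_insert ha]
    rw [bd_add, ih]

theorem bd_mul (s t : E → V) (c : ZMod 2) (z : E → ZMod 2) (v : V) :
    bd s t (fun e => c * z e) v = c * bd s t z v := by
  unfold bd
  rw [mul_add, Finset.mul_sum, Finset.mul_sum]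
  congr 1 <;> refine Finset.sum_congr rfl (fun e _ => ?_) <;> split_ifs <;> simp

theorem bd_single [DecidableEq E] (s t : E → V) (e0 : E) (v : V) :
    bd s t (fun e => if e = e0 then 1 else 0) v
      = (if s e0 = v then 1 else 0) + (if t e0 = v then 1 else 0) := by
  unfold bd
  congr 1
  · rw [Finset.sum_eq_single e0]
    · simp
    · intro b _ hb; simp [hb]
    · intro h; exact absurd (Finset.mem_univ _) h
  · rw [Finset.sum_eq_single e0]
    · simp
    · intro b _ hb; simp [hb]
    · intro h; exact absurd (Finset.mem_univ _) h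

/-- an algebraic dual: coboundaries of face functions are exactly the cycles -/
structure Dual {F : Type} (s t : E → V) (f1 f2 : E → F) : Prop where
  even : ∀ (g : F → ZMod 2) (v : V), bd s t (fun e => g (f1 e) + g (f2 e)) v = 0
  cut : ∀ z : E → ZMod 2, (∀ v, bd s t z v = 0) →
    ∃ g : F → ZMod 2, ∀ e, z e = g (f1 e) + g (f2 e)

theorem zmod2_cases (a : ZMod 2) : a = 0 ∨ a = 1 := by
  revert a; decide

theorem zmod2_add_self (a : ZMod 2) : a + a = 0 := by
  revert a; decide

end Basic

/-- a connected vertex set joins any two of its vertices by a chain inside it -/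
theorem chain_of_connected {V E : Type} [Fintype E] [DecidableEq V] [DecidableEq E]
    (G : SimpleGraph V) (s t : E → V)
    (hcov : ∀ u v, G.Adj u v → ∃ e, (s e = u ∧ t e = v) ∨ (s e = v ∧ t e = u))
    (B : Set V) (hB : (G.induce B).Connected) (x y : V) (hx : x ∈ B) (hy : y ∈ B) :
    ∃ z : E → ZMod 2, (∀ e, z e ≠ 0 → s e ∈ B ∧ t e ∈ B) ∧
      ∀ v, bd s t z v = (if x = v then 1 else 0) + (if y = v then 1 else 0) := by
  have key : ∀ (a b : B), (G.induce B).Walk a b →
      ∃ z : E → ZMod 2, (∀ e, z e ≠ 0 → s e ∈ B ∧ t e ∈ B) ∧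
      ∀ v, bd s t z v = (if (a : V) = v then 1 else 0) + (if (b : V) = v then 1 else 0) := by
    intro a b w
    induction w with
    | nil =>
      refine ⟨fun _ => 0, fun e h => absurd rfl h, fun v => ?_⟩
      rw [bd_zero, zmod2_add_self]
    | @cons a c b hadj w ih =>
      obtain ⟨z, hz1, hz2⟩ := ih
      obtain ⟨e0, he0⟩ := hcov a c hadj
      have hin : s e0 ∈ B ∧ t e0 ∈ B := by
        rcases he0 with ⟨h1, h2⟩ | ⟨h1, h2⟩
        · rw [h1, h2]; exact ⟨a.2, c.2⟩
        · rw [h1, h2]; exact ⟨c.2, a.2⟩
      refine ⟨fun e => (if e = e0 then 1 else 0) + z e, ?_, ?_⟩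
      · intro e he
        by_cases h : e = e0
        · rw [h]; exact hin
        · apply hz1
          simpa [h] using he
      · intro v
        rw [bd_add, bd_single, hz2]
        rcases he0 with ⟨h1, h2⟩ | ⟨h1, h2⟩
        · rw [h1, h2]
          generalize (if (a : V) = v then (1 : ZMod 2) else 0) = p
          generalize (if (c : V) = v then (1 : ZMod 2) else 0) = q
          generalize (if (b : V) = v then (1 : ZMod 2) else 0) = r
          revert p q r; decide
        · rw [h1, h2]
          generalize (if (a : V) = v then (1 : ZMod 2) else 0) = p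
          generalize (if (c : V) = v then (1 : ZMod 2) else 0) = q
          generalize (if (b : V) = v then (1 : ZMod 2) else 0) = r
          revert p q r; decide
  obtain ⟨w⟩ := hB.preconnected ⟨x, hx⟩ ⟨y, hy⟩
  exact key _ _ w

theorem mem_unique {V I : Type} (B : I → Set V) (hdis : ∀ i j, i ≠ j → Disjoint (B i) (B j))
    {i j : I} {x : V} (hi : x ∈ B i) (hj : x ∈ B j) : i = j := by
  by_contra h
  exact Set.disjoint_left.1 (hdis i j h) hi hj

/-- a dual certificate passes to minors -/
theorem Dual.minor {V E F I M : Type} [Fintype V] [Fintype E] [Finite F] [Fintype I] [Fintype M]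
    [DecidableEq V] [DecidableEq E] [DecidableEq I]
    (G : SimpleGraph V) (s t : E → V) (f1 f2 : E → F) (hD : Dual s t f1 f2)
    (hcov : ∀ u v, G.Adj u v → ∃ e, (s e = u ∧ t e = v) ∨ (s e = v ∧ t e = u))
    (B : I → Set V) (hdis : ∀ i j, i ≠ j → Disjoint (B i) (B j))
    (hconn : ∀ i, (G.induce (B i)).Connected)
    (p q : M → I) (hpq : ∀ m, p m ≠ q m) (ε : M → E) (hε : Function.Injective ε)
    (hends : ∀ m, (s (ε m) ∈ B (p m) ∧ t (ε m) ∈ B (q m)) ∨
      (s (ε m) ∈ B (q m) ∧ t (ε m) ∈ B (p m))) :
    ∃ (Q : Type) (_ : Finite Q) (h1 h2 : M → Q), Dual p q h1 h2 := by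
  classical
  set keep : E → Prop := fun e => (∃ i, s e ∈ B i ∧ t e ∈ B i) ∨ ∃ m, ε m = e with hkeep
  set r : F → F → Prop := fun f f' => ∃ e, ¬ keep e ∧ f1 e = f ∧ f2 e = f' with hr
  refine ⟨Quot r, inferInstance, fun m => Quot.mk r (f1 (ε m)), fun m => Quot.mk r (f2 (ε m)), ?_, ?_⟩
  · intro g i
    set z : E → ZMod 2 := fun e => g (Quot.mk r (f1 e)) + g (Quot.mk r (f2 e)) with hz
    have hz0 : ∀ e, ¬ keep e → z e = 0 := by
      intro e he
      have : Quot.mk r (f1 e) = Quot.mk r (f2 e) := Quot.sound ⟨e, he, rfl, rfl⟩
      simp only [hz, this]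
      exact zmod2_add_self _
    have hbd : ∀ v, bd s t z v = 0 := fun v => hD.even (fun f => g (Quot.mk r f)) v
    have hsum : ∑ v : V, (if v ∈ B i then bd s t z v else 0) = 0 := by
      refine Finset.sum_eq_zero (fun v _ => ?_)
      rw [hbd v]; simp
    have hswap : ∑ v : V, (if v ∈ B i then bd s t z v else 0)
        = ∑ e : E, ((if s e ∈ B i then z e else 0) + (if t e ∈ B i then z e else 0)) := by
      have h1 : ∀ v : V, (if v ∈ B i then bd s t z v else 0)
          = ∑ e : E, ((if v ∈ B i then (if s e = v then z e else 0) else 0)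
            + (if v ∈ B i then (if t e = v then z e else 0) else 0)) := by
        intro v
        by_cases h : v ∈ B i
        · simp only [h, if_true, bd, Finset.sum_add_distrib]
        · simp [h]
      rw [Finset.sum_congr rfl (fun v _ => h1 v), Finset.sum_comm]
      refine Finset.sum_congr rfl (fun e _ => ?_)
      rw [Finset.sum_add_distrib]
      congr 1
      · rw [Finset.sum_eq_single (s e)]
        · simp
        · intro b _ hb
          have : s e ≠ b := fun h => hb h.symm
          simp [this]
        · intro h; exact absurd (Finset.mem_univ _) h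
      · rw [Finset.sum_eq_single (t e)]
        · simp
        · intro b _ hb
          have : t e ≠ b := fun h => hb h.symm
          simp [this]
        · intro h; exact absurd (Finset.mem_univ _) h
    have himg : ∑ e : E, ((if s e ∈ B i then z e else 0) + (if t e ∈ B i then z e else 0))
        = ∑ e ∈ Finset.univ.image ε,
          ((if s e ∈ B i then z e else 0) + (if t e ∈ B i then z e else 0)) := by
      symm
      refine Finset.sum_subset (Finset.subset_univ _) ?_
      intro e _ he
      by_cases hk : keep e
      · rcases hk with ⟨j, hj1, hj2⟩ | ⟨m, hm⟩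
        · by_cases hij : j = i
          · subst hij
            simp only [hj1, hj2, if_true]
            exact zmod2_add_self _
          · have h1 : s e ∉ B i := fun h => hij (mem_unique B hdis hj1 h)
            have h2 : t e ∉ B i := fun h => hij (mem_unique B hdis hj2 h)
            simp [h1, h2]
        · exact absurd (Finset.mem_image.2 ⟨m, Finset.mem_univ _, hm⟩) he
      · rw [hz0 e hk]; simp
    rw [hswap, himg, Finset.sum_image (fun a _ b _ h => hε h)] at hsum
    have hfin : ∀ m, ((if s (ε m) ∈ B i then z (ε m) else 0)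
        + (if t (ε m) ∈ B i then z (ε m) else 0))
        = (if p m = i then z (ε m) else 0) + (if q m = i then z (ε m) else 0) := by
      intro m
      have e1 : ∀ (x : V) (j : I), x ∈ B j → (x ∈ B i ↔ j = i) := by
        intro x j hx
        exact ⟨fun h => mem_unique B hdis hx h, fun h => h ▸ hx⟩
      rcases hends m with ⟨h1, h2⟩ | ⟨h1, h2⟩
      · simp only [e1 _ _ h1, e1 _ _ h2]
      · simp only [e1 _ _ h1, e1 _ _ h2]
        rw [add_comm]
    rw [Finset.sum_congr rfl (fun m _ => hfin m), Finset.sum_add_distrib] at hsum
    exact hsum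
  · intro w hw
    -- ends, roots and chains
    have hab : ∀ m, ∃ a b, a ∈ B (p m) ∧ b ∈ B (q m) ∧
        ∀ v, ((if s (ε m) = v then (1 : ZMod 2) else 0) + (if t (ε m) = v then 1 else 0))
          = (if a = v then 1 else 0) + (if b = v then 1 else 0) := by
      intro m
      rcases hends m with ⟨h1, h2⟩ | ⟨h1, h2⟩
      · exact ⟨_, _, h1, h2, fun v => rfl⟩
      · exact ⟨_, _, h2, h1, fun v => add_comm _ _⟩
    choose a b ha hb hab' using hab
    have hroot : ∀ i, ∃ x, x ∈ B i := fun i => by
      obtain ⟨x⟩ := (hconn i).nonempty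
      exact ⟨x, x.2⟩
    choose rt hrt using hroot
    choose zp hzp1 hzp2 using fun m => chain_of_connected G s t hcov (B (p m)) (hconn _) (a m)
      (rt (p m)) (ha m) (hrt _)
    choose zq hzq1 hzq2 using fun m => chain_of_connected G s t hcov (B (q m)) (hconn _) (b m)
      (rt (q m)) (hb m) (hrt _)
    set z : E → ZMod 2 := fun e =>
      ∑ m, w m * ((if e = ε m then 1 else 0) + (zp m e + zq m e)) with hz
    have hbd : ∀ v, bd s t z v = 0 := by
      intro v
      have h1 : bd s t z v = ∑ m, w m * ((if rt (p m) = v then 1 else 0)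
          + (if rt (q m) = v then 1 else 0)) := by
        rw [hz, bd_sum]
        refine Finset.sum_congr rfl (fun m _ => ?_)
        rw [bd_mul, bd_add, bd_add, bd_single, hab', hzp2, hzq2]
        congr 1
        generalize (if a m = v then (1 : ZMod 2) else 0) = x1
        generalize (if b m = v then (1 : ZMod 2) else 0) = x2
        generalize (if rt (p m) = v then (1 : ZMod 2) else 0) = x3
        generalize (if rt (q m) = v then (1 : ZMod 2) else 0) = x4
        revert x1 x2 x3 x4; decide
      have h2 : ∑ m, w m * ((if rt (p m) = v then (1 : ZMod 2) else 0)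
          + (if rt (q m) = v then 1 else 0)) = ∑ i, (if rt i = v then bd p q w i else 0) := by
        have h3 : ∀ i, (if rt i = v then bd p q w i else 0)
            = ∑ m, ((if rt i = v then (if p m = i then w m else 0) else 0)
              + (if rt i = v then (if q m = i then w m else 0) else 0)) := by
          intro i
          by_cases h : rt i = v
          · simp only [h, if_true, bd, Finset.sum_add_distrib]
          · simp [h]
        rw [Finset.sum_congr rfl (fun i _ => h3 i), Finset.sum_comm]
        refine Finset.sum_congr rfl (fun m _ => ?_)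
        rw [Finset.sum_add_distrib, mul_add]
        congr 1
        · rw [Finset.sum_eq_single (p m)]
          · by_cases h : rt (p m) = v <;> simp [h]
          · intro j _ hj
            have : p m ≠ j := fun h => hj h.symm
            simp [this]
          · intro h; exact absurd (Finset.mem_univ _) h
        · rw [Finset.sum_eq_single (q m)]
          · by_cases h : rt (q m) = v <;> simp [h]
          · intro j _ hj
            have : q m ≠ j := fun h => hj h.symm
            simp [this]
          · intro h; exact absurd (Finset.mem_univ _) h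
      rw [h1, h2]
      refine Finset.sum_eq_zero (fun i _ => ?_)
      rw [hw i]; simp
    obtain ⟨g, hg⟩ := hD.cut z hbd
    have hz0 : ∀ e, ¬ keep e → z e = 0 := by
      intro e he
      rw [hz]
      refine Finset.sum_eq_zero (fun m _ => ?_)
      have h1 : e ≠ ε m := fun h => he (Or.inr ⟨m, h.symm⟩)
      have h2 : zp m e = 0 := by
        by_contra h
        exact he (Or.inl ⟨p m, hzp1 m e h⟩)
      have h3 : zq m e = 0 := by
        by_contra h
        exact he (Or.inl ⟨q m, hzq1 m e h⟩)
      simp [h1, h2, h3]
    have hglift : ∀ f f', r f f' → g f = g f' := by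
      rintro f f' ⟨e, he, rfl, rfl⟩
      have h1 := hg e
      rw [hz0 e he] at h1
      revert h1
      generalize g (f1 e) = x
      generalize g (f2 e) = y
      revert x y; decide
    refine ⟨Quot.lift g hglift, fun m => ?_⟩
    have hzm : z (ε m) = w m := by
      rw [hz]
      change (∑ m', w m' * ((if ε m = ε m' then 1 else 0) + (zp m' (ε m) + zq m' (ε m)))) = w m
      rw [Finset.sum_eq_single m]
      · have h2 : zp m (ε m) = 0 := by
          by_contra h
          have h' := hzp1 m (ε m) h
          rcases hends m with ⟨h1, h2⟩ | ⟨h1, h2⟩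
          · exact hpq m (mem_unique B hdis h'.2 h2)
          · exact hpq m (mem_unique B hdis h'.1 h1)
        have h3 : zq m (ε m) = 0 := by
          by_contra h
          have h' := hzq1 m (ε m) h
          rcases hends m with ⟨h1, h2⟩ | ⟨h1, h2⟩
          · exact hpq m (mem_unique B hdis h1 h'.1)
          · exact hpq m (mem_unique B hdis h2 h'.2)
        simp [h2, h3]
      · intro m' _ hm'
        have h0 : ε m ≠ ε m' := fun h => hm' (hε h).symm
        have h2 : zp m' (ε m) = 0 := by
          by_contra h
          have h' := hzp1 m' (ε m) h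
          rcases hends m with ⟨h1, h2⟩ | ⟨h1, h2⟩
          · exact hpq m ((mem_unique B hdis h1 h'.1).trans (mem_unique B hdis h'.2 h2))
          · exact hpq m ((mem_unique B hdis h2 h'.2).trans (mem_unique B hdis h'.1 h1))
        have h3 : zq m' (ε m) = 0 := by
          by_contra h
          have h' := hzq1 m' (ε m) h
          rcases hends m with ⟨h1, h2⟩ | ⟨h1, h2⟩
          · exact hpq m ((mem_unique B hdis h1 h'.1).trans (mem_unique B hdis h'.2 h2))
          · exact hpq m ((mem_unique B hdis h2 h'.2).trans (mem_unique B hdis h'.1 h1))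
        simp [h0, h2, h3]
      · intro h; exact absurd (Finset.mem_univ _) h
    rw [← hzm, hg]

/-- coboundary -/
def cb {M Q : Type} (h1 h2 : M → Q) (g : Q → ZMod 2) : M → ZMod 2 := fun m => g (h1 m) + g (h2 m)

theorem Dual.count {I M Q : Type} [Fintype M] [DecidableEq M] [DecidableEq I] [Fintype Q]
    [DecidableEq Q]
    (p q : M → I) (h1 h2 : M → Q) (hD : Dual p q h1 h2) (c k : ℕ) (W : Finset (M → ZMod 2))
    (hW : ∀ w ∈ W, ∀ i, bd p q w i = 0)
    (hc : ∀ w : M → ZMod 2, (∀ i, bd p q w i = 0) → w ≠ 0 →
      c ≤ (univ.filter (fun m => w m ≠ 0)).card)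
    (hk : 2 * Fintype.card M < c * (k + 1)) (hWk : 2 ^ (k - 1) < W.card) : False := by
  classical
  -- single classes
  set δ : Q → M → ZMod 2 := fun x => cb h1 h2 (fun y => if y = x then 1 else 0) with hδ
  set Q' : Finset Q := univ.filter (fun x => δ x ≠ 0) with hQ'
  have hδbd : ∀ x i, bd p q (δ x) i = 0 := fun x i => hD.even (fun y => if y = x then 1 else 0) i
  have hcard : c * Q'.card ≤ 2 * Fintype.card M := by
    have e1 : ∑ x ∈ Q', c ≤ ∑ x ∈ Q', (univ.filter (fun m => δ x m ≠ 0)).card := by
      refine Finset.sum_le_sum (fun x hx => ?_)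
      exact hc (δ x) (hδbd x) (by simpa [hQ'] using hx)
    have e2 : ∑ x ∈ Q', (univ.filter (fun m => δ x m ≠ 0)).card
        = ∑ m : M, (Q'.filter (fun x => δ x m ≠ 0)).card := by
      simp only [Finset.card_filter]
      exact Finset.sum_comm
    have e3 : ∑ m : M, (Q'.filter (fun x => δ x m ≠ 0)).card ≤ ∑ _m : M, 2 := by
      refine Finset.sum_le_sum (fun m _ => ?_)
      have : Q'.filter (fun x => δ x m ≠ 0) ⊆ {h1 m, h2 m} := by
        intro x hx
        simp only [Finset.mem_filter] at hx
        simp only [Finset.mem_insert, Finset.mem_singleton]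
        by_contra hne
        push Not at hne
        apply hx.2
        simp only [hδ, cb]
        rw [if_neg (fun h => hne.1 h.symm), if_neg (fun h => hne.2 h.symm)]
        rfl
      exact (Finset.card_le_card this).trans Finset.card_le_two
    simp only [Finset.sum_const, smul_eq_mul, Finset.card_univ] at e1 e3
    rw [e2] at e1
    calc c * Q'.card = Q'.card * c := mul_comm _ _
      _ ≤ _ := e1
      _ ≤ _ := e3
      _ = _ := mul_comm _ _
  have hQk : Q'.card ≤ k := by
    by_contra h
    push Not at h
    have : c * (k + 1) ≤ c * Q'.card := Nat.mul_le_mul_left c h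
    omega
  -- expansion of a coboundary
  have hexp : ∀ g : Q → ZMod 2, cb h1 h2 g = fun m => ∑ x ∈ Q'.filter (fun x => g x ≠ 0), δ x m := by
    intro g
    funext m
    have e1 : ∀ y : Q, g y = ∑ x : Q, (if g x ≠ 0 then (if y = x then (1 : ZMod 2) else 0) else 0) := by
      intro y
      rw [Finset.sum_eq_single y]
      · rcases zmod2_cases (g y) with h | h <;> simp [h]
      · intro b _ hb
        have : y ≠ b := fun h => hb h.symm
        simp [this]
      · intro h; exact absurd (Finset.mem_univ _) h
    have e2 : cb h1 h2 g m = ∑ x : Q, (if g x ≠ 0 then δ x m else 0) := by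
      simp only [cb]
      rw [e1 (h1 m), e1 (h2 m), ← Finset.sum_add_distrib]
      refine Finset.sum_congr rfl (fun x _ => ?_)
      by_cases h : g x ≠ 0
      · simp only [h, if_true, ne_eq, not_false_eq_true, hδ, cb]
      · simp only [h, if_false, add_zero]
    rw [e2, ← Finset.sum_filter]
    have e3 : Q'.filter (fun x => g x ≠ 0) ⊆ univ.filter (fun x => g x ≠ 0) :=
      Finset.filter_subset_filter _ (Finset.subset_univ _)
    symm
    refine Finset.sum_subset e3 ?_
    intro x hx hx'
    have : ¬ (δ x ≠ 0) := by
      intro h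
      apply hx'
      simp only [Finset.mem_filter, hQ', Finset.mem_univ, true_and] at hx ⊢
      exact ⟨h, hx⟩
    rw [not_not.1 this]; rfl
  have hall : (fun m => ∑ x ∈ Q', δ x m) = 0 := by
    have := hexp (fun _ => 1)
    have e1 : Q'.filter (fun x => (fun _ : Q => (1 : ZMod 2)) x ≠ 0) = Q' := by
      ext x; simp
    rw [e1] at this
    rw [← this]
    funext m
    simp only [cb]
    exact zmod2_add_self _
  rcases Q'.eq_empty_or_nonempty with hem | ⟨x0, hx0⟩
  · have hle : W ⊆ {0} := by
      intro w hw
      obtain ⟨g, hg⟩ := hD.cut w (hW w hw)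
      have e1 : w = cb h1 h2 g := by funext m; exact hg m
      rw [Finset.mem_singleton, e1, hexp g, hem]
      funext m; simp
    have e2 := Finset.card_le_card hle
    have e3 : 1 ≤ 2 ^ (k - 1) := Nat.one_le_two_pow
    simp only [Finset.card_singleton] at e2
    omega
  · have hle : W ⊆ ((Q'.erase x0).powerset).image (fun T => fun m => ∑ x ∈ T, δ x m) := by
      intro w hw
      obtain ⟨g, hg⟩ := hD.cut w (hW w hw)
      have e1 : w = cb h1 h2 g := by funext m; exact hg m
      rw [Finset.mem_image]
      by_cases hgx : g x0 = 0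
      · refine ⟨Q'.filter (fun x => g x ≠ 0), ?_, ?_⟩
        · rw [Finset.mem_powerset]
          intro x hx
          simp only [Finset.mem_filter] at hx
          rw [Finset.mem_erase]
          refine ⟨fun h => hx.2 (h ▸ hgx), hx.1⟩
        · rw [e1, hexp g]
      · refine ⟨Q'.filter (fun x => ¬ (g x ≠ 0)), ?_, ?_⟩
        · rw [Finset.mem_powerset]
          intro x hx
          simp only [Finset.mem_filter] at hx
          rw [Finset.mem_erase]
          refine ⟨fun h => hx.2 (h ▸ hgx), hx.1⟩
        · rw [e1, hexp g]
          funext m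
          have e2 := congrFun hall m
          simp only [Pi.zero_apply] at e2
          rw [← Finset.sum_filter_add_sum_filter_not Q' (fun x => g x ≠ 0)] at e2
          revert e2
          generalize (∑ x ∈ Q'.filter (fun x => g x ≠ 0), δ x m) = u
          generalize (∑ x ∈ Q'.filter (fun x => ¬ (g x ≠ 0)), δ x m) = v
          revert u v; decide
    have e2 := Finset.card_le_card hle
    have e3 : (((Q'.erase x0).powerset).image (fun T => fun m => ∑ x ∈ T, δ x m)).card
        ≤ 2 ^ (Q'.card - 1) := by
      refine Finset.card_image_le.trans ?_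
      rw [Finset.card_powerset, Finset.card_erase_of_mem hx0]
    have e4 : 2 ^ (Q'.card - 1) ≤ 2 ^ (k - 1) := Nat.pow_le_pow_right (by norm_num) (by omega)
    omega

end Pool.Agent.Helper60.Pack
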