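import Mathlib
import Pool.Agent.Helper60.Pack.Defs
import Pool.Agent.Helper60.Pack.Dual

set_option autoImplicit false
set_option linter.unusedSectionVars false

namespace Pool.Agent.Helper60.Pack

open Finset

/-- if the pattern `(p, q)` has no dual then it is not a minor of a graph with a dual certificate -/
theorem no_minor {V E F I M : Type} [Fintype V] [Fintype E] [Finite F] [Fintype I] [Fintype M]
    [DecidableEq V] [DecidableEq E] [DecidableEq I]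
    (G : SimpleGraph V) (s t : E → V) (f1 f2 : E → F) (hD : Dual s t f1 f2)
    (hcov : ∀ u v, G.Adj u v → ∃ e, (s e = u ∧ t e = v) ∨ (s e = v ∧ t e = u))
    (p q : M → I) (hpq : ∀ m, p m ≠ q m)
    (hsimple : ∀ m m', ((p m = p m' ∧ q m = q m') ∨ (p m = q m' ∧ q m = p m')) → m = m')
    (hno : ∀ (Q : Type) (_ : Finite Q) (h1 h2 : M → Q), ¬ Dual p q h1 h2)
    (B : I → Set V) (hconn : ∀ i, (G.induce (B i)).Connected)
    (hdis : ∀ i j, i ≠ j → Disjoint (B i) (B j))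
    (hadj : ∀ m, ∃ a ∈ B (p m), ∃ b ∈ B (q m), G.Adj a b) : False := by
  have hε : ∀ m, ∃ e, (s e ∈ B (p m) ∧ t e ∈ B (q m)) ∨ (s e ∈ B (q m) ∧ t e ∈ B (p m)) := by
    intro m
    obtain ⟨a, ha, b, hb, hab⟩ := hadj m
    obtain ⟨e, he⟩ := hcov a b hab
    refine ⟨e, ?_⟩
    rcases he with ⟨h1, h2⟩ | ⟨h1, h2⟩
    · left; rw [h1, h2]; exact ⟨ha, hb⟩
    · right; rw [h1, h2]; exact ⟨hb, ha⟩
  choose ε hε using hε
  have hinj : Function.Injective ε := by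
    intro m m' h
    apply hsimple
    have h1 := hε m
    have h2 := hε m'
    rw [h] at h1
    rcases h1 with ⟨a1, b1⟩ | ⟨a1, b1⟩ <;> rcases h2 with ⟨a2, b2⟩ | ⟨a2, b2⟩
    · exact Or.inl ⟨mem_unique B hdis a1 a2, mem_unique B hdis b1 b2⟩
    · exact Or.inr ⟨mem_unique B hdis a1 a2, mem_unique B hdis b1 b2⟩
    · exact Or.inr ⟨mem_unique B hdis b1 b2, mem_unique B hdis a1 a2⟩
    · exact Or.inl ⟨mem_unique B hdis b1 b2, mem_unique B hdis a1 a2⟩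
  obtain ⟨Q, hQ, h1, h2, hd⟩ := Dual.minor G s t f1 f2 hD hcov B hdis hconn p q hpq ε hinj hε
  exact hno Q hQ h1 h2 hd

/-! ### `K₃,₃` -/

def p33 (m : Fin 9) : Bool × Fin 3 := (false, (![0, 0, 0, 1, 1, 1, 2, 2, 2] : Fin 9 → Fin 3) m)
def q33 (m : Fin 9) : Bool × Fin 3 := (true, (![0, 1, 2, 0, 1, 2, 0, 1, 2] : Fin 9 → Fin 3) m)

theorem bd33 (w : Fin 9 → ZMod 2) (h : ∀ i, bd p33 q33 w i = 0) :
    w 0 + (w 1 + w 2) = 0 ∧ w 3 + (w 4 + w 5) = 0 ∧ w 6 + (w 7 + w 8) = 0 ∧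
    w 0 + (w 3 + w 6) = 0 ∧ w 1 + (w 4 + w 7) = 0 ∧ w 2 + (w 5 + w 8) = 0 := by
  have h1 := h (false, 0)
  have h2 := h (false, 1)
  have h3 := h (false, 2)
  have h4 := h (true, 0)
  have h5 := h (true, 1)
  have h6 := h (true, 2)
  simp [bd, p33, q33, Fin.sum_univ_succ] at h1 h2 h3 h4 h5 h6
  exact ⟨h1, h2, h3, h4, h5, h6⟩

theorem wt33_aux : ∀ a b d e : ZMod 2, ¬ (a = 0 ∧ b = 0 ∧ d = 0 ∧ e = 0) →
    4 ≤ (if a ≠ 0 then 1 else 0) + ((if b ≠ 0 then 1 else 0) + ((if a + b ≠ 0 then 1 else 0) +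
      ((if d ≠ 0 then 1 else 0) + ((if e ≠ 0 then 1 else 0) + ((if d + e ≠ 0 then 1 else 0) +
      ((if a + d ≠ 0 then 1 else 0) + ((if b + e ≠ 0 then 1 else 0) +
      (if a + b + (d + e) ≠ 0 then 1 else 0)))))))) := by
  decide

theorem z2_solve3 : ∀ a b c : ZMod 2, a + (b + c) = 0 → c = a + b := by decide

theorem wt33 (a b c d e f g h i : ZMod 2) (h1 : a + (b + c) = 0) (h2 : d + (e + f) = 0)
    (h3 : g + (h + i) = 0) (h4 : a + (d + g) = 0) (h5 : b + (e + h) = 0) (h6 : c + (f + i) = 0)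
    (hn : ¬ (a = 0 ∧ b = 0 ∧ c = 0 ∧ d = 0 ∧ e = 0 ∧ f = 0 ∧ g = 0 ∧ h = 0 ∧ i = 0)) :
    4 ≤ (if a ≠ 0 then 1 else 0) + ((if b ≠ 0 then 1 else 0) + ((if c ≠ 0 then 1 else 0) +
      ((if d ≠ 0 then 1 else 0) + ((if e ≠ 0 then 1 else 0) + ((if f ≠ 0 then 1 else 0) +
      ((if g ≠ 0 then 1 else 0) + ((if h ≠ 0 then 1 else 0) + (if i ≠ 0 then 1 else 0)))))))) := by
  have k1 := z2_solve3 _ _ _ h1
  have k2 := z2_solve3 _ _ _ h2
  have k4 := z2_solve3 _ _ _ h4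
  have k5 := z2_solve3 _ _ _ h5
  have k6 := z2_solve3 _ _ _ h6
  subst k1 k2 k4 k5 k6
  apply wt33_aux
  rintro ⟨rfl, rfl, rfl, rfl⟩
  exact hn (by simp)

/-- the sixteen cycles of `K₃,₃` -/
def cyc33 (x : ZMod 2 × ZMod 2 × ZMod 2 × ZMod 2) : Fin 9 → ZMod 2 :=
  ![x.1, x.2.1, x.1 + x.2.1, x.2.2.1, x.2.2.2, x.2.2.1 + x.2.2.2,
    x.1 + x.2.2.1, x.2.1 + x.2.2.2, x.1 + x.2.1 + (x.2.2.1 + x.2.2.2)]

theorem cyc33_inj : Function.Injective cyc33 := by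
  rintro ⟨a, b, c, d⟩ ⟨a', b', c', d'⟩ h
  have h0 := congrFun h 0
  have h1 := congrFun h 1
  have h3 := congrFun h 3
  have h4 := congrFun h 4
  simp [cyc33] at h0 h1 h3 h4
  simp [h0, h1, h3, h4]

theorem cyc33_bd (x : ZMod 2 × ZMod 2 × ZMod 2 × ZMod 2) (i : Bool × Fin 3) :
    bd p33 q33 (cyc33 x) i = 0 := by
  obtain ⟨a, b, c, d⟩ := x
  obtain ⟨i, j⟩ := i
  cases i <;> fin_cases j <;> simp [bd, p33, q33, cyc33, Fin.sum_univ_succ] <;>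
    (revert a b c d; decide)

theorem no_dual_33 (Q : Type) (hQ : Finite Q) (h1 h2 : Fin 9 → Q) : ¬ Dual p33 q33 h1 h2 := by
  classical
  intro hD
  let _ := Fintype.ofFinite Q
  refine Dual.count p33 q33 h1 h2 hD 4 4 (Finset.univ.image cyc33) ?_ ?_ (by simp) ?_
  · intro w hw i
    obtain ⟨x, _, rfl⟩ := Finset.mem_image.1 hw
    exact cyc33_bd x i
  · intro w hw hne
    obtain ⟨e1, e2, e3, e4, e5, e6⟩ := bd33 w hw
    have := wt33 _ _ _ _ _ _ _ _ _ e1 e2 e3 e4 e5 e6 (by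
      rintro ⟨k0, k1, k2, k3, k4, k5, k6, k7, k8⟩
      apply hne
      funext m
      fin_cases m
      exacts [k0, k1, k2, k3, k4, k5, k6, k7, k8])
    rw [Finset.card_filter]
    simpa [Fin.sum_univ_succ] using this
  · rw [Finset.card_image_of_injective _ cyc33_inj]
    decide

/-! ### `K₅` -/

def p5 (m : Fin 10) : Fin 5 := (![0, 0, 0, 0, 1, 1, 1, 2, 2, 3] : Fin 10 → Fin 5) m
def q5 (m : Fin 10) : Fin 5 := (![1, 2, 3, 4, 2, 3, 4, 3, 4, 4] : Fin 10 → Fin 5) m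

theorem bd5 (w : Fin 10 → ZMod 2) (h : ∀ i, bd p5 q5 w i = 0) :
    w 0 + (w 1 + (w 2 + w 3)) = 0 ∧ w 4 + (w 5 + w 6) + w 0 = 0 ∧
    w 7 + w 8 + (w 1 + w 4) = 0 ∧
    w 9 + (w 2 + (w 5 + w 7)) = 0 ∧ w 3 + (w 6 + (w 8 + w 9)) = 0 := by
  have h1 := h 0
  have h2 := h 1
  have h3 := h 2
  have h4 := h 3
  have h5 := h 4
  simp [bd, p5, q5, Fin.sum_univ_succ] at h1 h2 h3 h4 h5
  exact ⟨h1, h2, h3, h4, h5⟩

theorem wt5_aux : ∀ e f g h i j : ZMod 2,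
    ¬ (e = 0 ∧ f = 0 ∧ g = 0 ∧ h = 0 ∧ i = 0 ∧ j = 0) →
    3 ≤ (if e + f + g ≠ 0 then 1 else 0) + ((if h + i + e ≠ 0 then 1 else 0) +
      ((if j + f + h ≠ 0 then 1 else 0) +
      ((if g + i + j ≠ 0 then 1 else 0) + ((if e ≠ 0 then 1 else 0) + ((if f ≠ 0 then 1 else 0) +
      ((if g ≠ 0 then 1 else 0) + ((if h ≠ 0 then 1 else 0) + ((if i ≠ 0 then 1 else 0) +
      (if j ≠ 0 then 1 else 0))))))))) := by
  decide

theorem z2_solve_a : ∀ a e f g : ZMod 2, e + (f + g) + a = 0 → a = e + f + g := by decide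
theorem z2_solve_b : ∀ b e h i : ZMod 2, h + i + (b + e) = 0 → b = h + i + e := by decide
theorem z2_solve_c : ∀ c f h j : ZMod 2, j + (c + (f + h)) = 0 → c = j + f + h := by decide
theorem z2_solve_d : ∀ d g i j : ZMod 2, d + (g + (i + j)) = 0 → d = g + i + j := by decide

theorem wt5 (a b c d e f g h i j : ZMod 2) (h1 : e + (f + g) + a = 0)
    (h2 : h + i + (b + e) = 0) (h3 : j + (c + (f + h)) = 0) (h4 : d + (g + (i + j)) = 0)
    (hn : ¬ (a = 0 ∧ b = 0 ∧ c = 0 ∧ d = 0 ∧ e = 0 ∧ f = 0 ∧ g = 0 ∧ h = 0 ∧ i = 0 ∧ j = 0)) :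
    3 ≤ (if a ≠ 0 then 1 else 0) + ((if b ≠ 0 then 1 else 0) + ((if c ≠ 0 then 1 else 0) +
      ((if d ≠ 0 then 1 else 0) + ((if e ≠ 0 then 1 else 0) + ((if f ≠ 0 then 1 else 0) +
      ((if g ≠ 0 then 1 else 0) + ((if h ≠ 0 then 1 else 0) + ((if i ≠ 0 then 1 else 0) +
      (if j ≠ 0 then 1 else 0))))))))) := by
  have k1 := z2_solve_a _ _ _ _ h1
  have k2 := z2_solve_b _ _ _ _ h2
  have k3 := z2_solve_c _ _ _ _ h3
  have k4 := z2_solve_d _ _ _ _ h4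
  subst k1 k2 k3 k4
  apply wt5_aux
  rintro ⟨rfl, rfl, rfl, rfl, rfl, rfl⟩
  exact hn (by simp)

/-- the sixty-four cycles of `K₅` -/
def cyc5 (x : ZMod 2 × ZMod 2 × ZMod 2 × ZMod 2 × ZMod 2 × ZMod 2) : Fin 10 → ZMod 2 :=
  ![x.1 + x.2.1 + x.2.2.1, x.1 + x.2.2.2.1 + x.2.2.2.2.1, x.2.1 + x.2.2.2.1 + x.2.2.2.2.2,
    x.2.2.1 + x.2.2.2.2.1 + x.2.2.2.2.2,
    x.1, x.2.1, x.2.2.1, x.2.2.2.1, x.2.2.2.2.1, x.2.2.2.2.2]

theorem cyc5_inj : Function.Injective cyc5 := by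
  rintro ⟨a, b, c, d, e, f⟩ ⟨a', b', c', d', e', f'⟩ h
  have h0 := congrFun h 4
  have h1 := congrFun h 5
  have h3 := congrFun h 6
  have h4 := congrFun h 7
  have h5 := congrFun h 8
  have h6 := congrFun h 9
  simp [cyc5] at h0 h1 h3 h4 h5 h6
  simp [h0, h1, h3, h4, h5, h6]

theorem cyc5_bd (x : ZMod 2 × ZMod 2 × ZMod 2 × ZMod 2 × ZMod 2 × ZMod 2) (i : Fin 5) :
    bd p5 q5 (cyc5 x) i = 0 := by
  obtain ⟨a, b, c, d, e, f⟩ := x
  fin_cases i <;> simp [bd, p5, q5, cyc5, Fin.sum_univ_succ] <;>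
    (revert a b c d e f; decide)

theorem no_dual_5 (Q : Type) (hQ : Finite Q) (h1 h2 : Fin 10 → Q) : ¬ Dual p5 q5 h1 h2 := by
  classical
  intro hD
  let _ := Fintype.ofFinite Q
  refine Dual.count p5 q5 h1 h2 hD 3 6 (Finset.univ.image cyc5) ?_ ?_ (by simp) ?_
  · intro w hw i
    obtain ⟨x, _, rfl⟩ := Finset.mem_image.1 hw
    exact cyc5_bd x i
  · intro w hw hne
    obtain ⟨e1, e2, e3, e4, e5⟩ := bd5 w hw
    have := wt5 _ _ _ _ _ _ _ _ _ _ e2 e3 e4 e5 (by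
      rintro ⟨k0, k1, k2, k3, k4, k5, k6, k7, k8, k9⟩
      apply hne
      funext m
      fin_cases m
      exacts [k0, k1, k2, k3, k4, k5, k6, k7, k8, k9])
    rw [Finset.card_filter]
    simpa [Fin.sum_univ_succ] using this
  · rw [Finset.card_image_of_injective _ cyc5_inj]
    decide

/-- a graph with a dual certificate is planar (no `K₅` and no `K₃,₃` minor) -/
theorem planar_of_dual {V E F : Type} [Fintype V] [Fintype E] [Finite F] [DecidableEq V]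
    [DecidableEq E] (G : SimpleGraph V) (s t : E → V) (f1 f2 : E → F) (hD : Dual s t f1 f2)
    (hcov : ∀ u v, G.Adj u v → ∃ e, (s e = u ∧ t e = v) ∨ (s e = v ∧ t e = u)) : Planar G := by
  constructor
  · rintro ⟨f, hc, hd, ha⟩
    refine no_minor G s t f1 f2 hD hcov p5 q5 (by decide) (by decide) no_dual_5 f hc hd ?_
    intro m
    exact ha _ _ ((by decide : ∀ m, p5 m ≠ q5 m) m)
  · rintro ⟨f, hc, hd, ha⟩
    refine no_minor G s t f1 f2 hD hcov p33 q33 (by decide) (by decide) no_dual_33 f hc hd ?_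
    intro m
    exact ha _ _ (by simp [p33, q33])

end Pool.Agent.Helper60.Pack
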