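import Mathlib
import Pool.Agent.Helper60.Pack.Defs
import Pool.Agent.Helper60.Pack.Dual
import Pool.Agent.Helper60.Pack.Kur

set_option autoImplicit false

namespace Pool.Agent.Helper60.Pack

open Finset

def s14 : Fin 22 → Fin 14 := ![0,0,0,1,1,1,2,3,3,4,5,5,5,6,7,7,7,9,10,10,11,12]
def t14 : Fin 22 → Fin 14 := ![5,9,13,2,3,5,13,4,13,5,6,8,10,9,8,9,10,11,11,13,12,13]
def fa14 : Fin 22 → Fin 10 := ![1,1,2,0,0,3,0,2,0,2,1,6,4,1,6,5,5,5,5,4,8,8]
def fb14 : Fin 22 → Fin 10 := ![2,9,9,4,3,4,4,3,2,3,6,7,7,6,7,6,7,9,8,8,9,9]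

theorem even14_basis : ∀ (f : Fin 10) (v : Fin 14), bd s14 t14 (fun e =>
    (if fa14 e = f then 1 else 0) + (if fb14 e = f then 1 else 0)) v = 0 := by
  decide +kernel

theorem even14 (g : Fin 10 → ZMod 2) (v : Fin 14) :
    bd s14 t14 (fun e => g (fa14 e) + g (fb14 e)) v = 0 := by
  have h : (fun e => g (fa14 e) + g (fb14 e)) = (fun e => ∑ f : Fin 10, g f *
      ((if fa14 e = f then 1 else 0) + (if fb14 e = f then 1 else 0))) := by
    funext e
    simp [mul_add, Finset.sum_add_distrib]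
  rw [h, bd_sum]
  apply Finset.sum_eq_zero
  intro f _
  rw [bd_mul, even14_basis, mul_zero]

theorem cut14 (z : Fin 22 → ZMod 2) (hz : ∀ v, bd s14 t14 z v = 0) :
    ∃ g : Fin 10 → ZMod 2, ∀ e, z e = g (fa14 e) + g (fb14 e) := by
  have h0 := hz 0
  have h1 := hz 1
  have h2 := hz 2
  have h3 := hz 3
  have h4 := hz 4
  have h5 := hz 5
  have h6 := hz 6
  have h7 := hz 7
  have h8 := hz 8
  have h9 := hz 9
  have h10 := hz 10
  have h11 := hz 11
  have h12 := hz 12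
  have h13 := hz 13
  simp [bd, s14, t14, Fin.sum_univ_succ] at h0 h1 h2 h3 h4 h5 h6 h7 h8 h9 h10 h11 h12 h13
  refine ⟨![0, z 8 + z 0, z 8, z 4, z 3, z 8 + z 0 + z 10 + z 15, z 8 + z 0 + z 10,
    z 8 + z 0 + z 10 + z 11, z 8 + z 0 + z 10 + z 15 + z 18, z 8 + z 0 + z 1], ?_⟩
  intro e
  fin_cases e <;> simp [fa14, fb14] <;> grind

theorem dual14 : Dual s14 t14 fa14 fb14 := ⟨even14, cut14⟩

/-- every graph on `Fin 14` all of whose edges are among the 22 listed ones is planar -/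
theorem planar14 (G : SimpleGraph (Fin 14))
    (hcov : ∀ u v, G.Adj u v → ∃ e, (s14 e = u ∧ t14 e = v) ∨ (s14 e = v ∧ t14 e = u)) :
    Planar G :=
  planar_of_dual G s14 t14 fa14 fb14 dual14 hcov

end Pool.Agent.Helper60.Pack
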