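import Mathlib
import Pool.Agent.Helper60.Pack.Defs
import Pool.Agent.Helper60.Pack.Planar14

set_option autoImplicit false

namespace Pool.Agent.Helper60.Pack

/-- the example: 14 vertices, 22 edges -/
def G14 : SimpleGraph (Fin 14) where
  Adj u v := ∃ e, (s14 e = u ∧ t14 e = v) ∨ (s14 e = v ∧ t14 e = u)
  symm := ⟨fun _ _ ⟨e, h⟩ => ⟨e, h.symm⟩⟩
  loopless := ⟨fun v ⟨e, h⟩ => by
    have : ∀ e, s14 e ≠ t14 e := by decide
    rcases h with ⟨h1, h2⟩ | ⟨h1, h2⟩ <;> exact this e (h1.trans h2.symm)⟩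

instance : DecidableRel G14.Adj := fun u v =>
  inferInstanceAs (Decidable (∃ e, (s14 e = u ∧ t14 e = v) ∨ (s14 e = v ∧ t14 e = u)))

theorem G14_planar : Planar G14 := planar14 G14 (fun _ _ h => h)

theorem G14_noTri : ∀ a b, G14.Adj a b → ∀ c, G14.Adj b c → ¬ G14.Adj a c := by
  decide +kernel

theorem G14_cliqueFree : G14.CliqueFree 3 := by
  intro s hs
  rw [SimpleGraph.is3Clique_iff] at hs
  obtain ⟨a, b, c, hab, hac, hbc, -⟩ := hs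
  exact G14_noTri a b hab c hbc hac

/-- the six orderings of a list of three colours -/
def perms3 (a b c : ℕ) : List (ℕ × ℕ × ℕ) :=
  [(a, b, c), (a, c, b), (b, a, c), (b, c, a), (c, a, b), (c, b, a)]

theorem mem_perms3 (a b c x y z : ℕ) (hx : x = a ∨ x = b ∨ x = c) (hy : y = a ∨ y = b ∨ y = c)
    (hz : z = a ∨ z = b ∨ z = c) (hxy : x ≠ y) (hxz : x ≠ z) (hyz : y ≠ z) :
    (x, y, z) ∈ perms3 a b c := by
  rcases hx with rfl | rfl | rfl <;> rcases hy with rfl | rfl | rfl <;>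
    rcases hz with rfl | rfl | rfl <;> simp_all [perms3]

/-- two states of adjacent vertices are compatible -/
def dif (p q : ℕ × ℕ × ℕ) : Prop := p.1 ≠ q.1 ∧ p.2.1 ≠ q.2.1 ∧ p.2.2 ≠ q.2.2

instance (p q : ℕ × ℕ × ℕ) : Decidable (dif p q) :=
  inferInstanceAs (Decidable (p.1 ≠ q.1 ∧ p.2.1 ≠ q.2.1 ∧ p.2.2 ≠ q.2.2))

/-- the lists -/
def A14 : Fin 14 → ℕ := ![0, 0, 0, 0, 0, 0, 0, 0, 0, 0, 0, 0, 0, 0]
def B14 : Fin 14 → ℕ := ![1, 1, 1, 1, 1, 1, 1, 1, 1, 2, 2, 1, 1, 1]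
def C14 : Fin 14 → ℕ := ![2, 2, 2, 3, 3, 3, 3, 3, 3, 3, 3, 2, 2, 2]

set_option synthInstance.maxSize 100000 in
set_option synthInstance.maxHeartbeats 4000000 in
set_option maxRecDepth 100000 in
theorem search14 : ∀ p5 ∈ perms3 0 1 3, ∀ p6 ∈ perms3 0 1 3, dif p5 p6 → ∀ p8 ∈ perms3 0 1 3, dif p5 p8 → ∀ p7
    ∈ perms3 0 1 3, dif p8 p7 → ∀ p9 ∈ perms3 0 2 3, dif p6 p9 → dif p7 p9 → ∀ p0 ∈ perms3 0 1
    2, dif p5 p0 → dif p9 p0 → ∀ p10 ∈ perms3 0 2 3, dif p5 p10 → dif p7 p10 → ∀ p13 ∈ perms3 0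
    1 2, dif p0 p13 → dif p10 p13 → ∀ p11 ∈ perms3 0 1 2, dif p9 p11 → dif p10 p11 → ∀ p12 ∈
    perms3 0 1 2, dif p13 p12 → dif p11 p12 → ∀ p4 ∈ perms3 0 1 3, dif p5 p4 → ∀ p3 ∈ perms3 0 1
    3, dif p13 p3 → dif p4 p3 → ∀ p1 ∈ perms3 0 1 2, dif p5 p1 → dif p3 p1 → ∀ p2 ∈ perms3 0 1
    2, dif p13 p2 → dif p1 p2 → False := by
  decide +kernel

theorem no_packing (st : Fin 14 → ℕ × ℕ × ℕ) (hm : ∀ v, st v ∈ perms3 (A14 v) (B14 v) (C14 v))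
    (ha : ∀ u v, G14.Adj u v → dif (st u) (st v)) : False :=
  search14 (st 5) (hm 5) (st 6) (hm 6) (ha 5 6 ⟨10, by decide⟩) (st 8) (hm 8) (ha 5 8 ⟨11, by decide⟩)
    (st 7) (hm 7) (ha 8 7 ⟨14, by decide⟩) (st 9) (hm 9) (ha 6 9 ⟨13, by decide⟩) (ha 7 9 ⟨15,
    by decide⟩) (st 0) (hm 0) (ha 5 0 ⟨0, by decide⟩) (ha 9 0 ⟨1, by decide⟩) (st 10) (hm 10)
    (ha 5 10 ⟨12, by decide⟩) (ha 7 10 ⟨16, by decide⟩) (st 13) (hm 13) (ha 0 13 ⟨2, by decide⟩)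
    (ha 10 13 ⟨19, by decide⟩) (st 11) (hm 11) (ha 9 11 ⟨17, by decide⟩) (ha 10 11 ⟨18, by
    decide⟩) (st 12) (hm 12) (ha 13 12 ⟨21, by decide⟩) (ha 11 12 ⟨20, by decide⟩) (st 4) (hm 4)
    (ha 5 4 ⟨9, by decide⟩) (st 3) (hm 3) (ha 13 3 ⟨8, by decide⟩) (ha 4 3 ⟨7, by decide⟩) (st
    1) (hm 1) (ha 5 1 ⟨5, by decide⟩) (ha 3 1 ⟨4, by decide⟩) (st 2) (hm 2) (ha 13 2 ⟨6, by
    decide⟩) (ha 1 2 ⟨3, by decide⟩)

theorem not_packable_3 : ¬ Packable G14 3 := by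
  intro h
  obtain ⟨c, h1, h2, h3⟩ := h (fun v => {A14 v, B14 v, C14 v}) (by decide)
  refine no_packing (fun v => (c 0 v, c 1 v, c 2 v)) (fun v => ?_) (fun u v huv => ?_)
  · have k : ∀ i, c i v = A14 v ∨ c i v = B14 v ∨ c i v = C14 v := fun i => by
      simpa using h1 i v
    exact mem_perms3 _ _ _ _ _ _ (k 0) (k 1) (k 2) (h3 0 1 v (by decide)) (h3 0 2 v (by decide))
      (h3 1 2 v (by decide))
  · exact ⟨h2 0 u v huv, h2 1 u v huv, h2 2 u v huv⟩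

theorem not_packable_1 : ¬ Packable G14 1 := by
  intro h
  obtain ⟨c, h1, h2, -⟩ := h (fun _ => {0}) (by simp)
  have := h2 0 0 5 (by decide)
  rw [Finset.mem_singleton.1 (h1 0 0), Finset.mem_singleton.1 (h1 0 5)] at this
  exact this rfl

theorem not_packable_2 : ¬ Packable G14 2 := by
  intro h
  obtain ⟨c, h1, h2, -⟩ := h (fun _ => {0, 1}) (by simp)
  have key : ∀ v, c 0 v = 0 ∨ c 0 v = 1 := fun v => by simpa using h1 0 v
  have a1 := h2 0 13 12 (by decide)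
  have a2 := h2 0 12 11 (by decide)
  have a3 := h2 0 11 9 (by decide)
  have a4 := h2 0 9 0 (by decide)
  have a5 := h2 0 0 13 (by decide)
  have k0 := key 13
  have k1 := key 12
  have k2 := key 11
  have k3 := key 9
  have k4 := key 0
  omega

theorem lower : ∃ (V : Type) (_ : Fintype V) (G : SimpleGraph V), Planar G ∧ G.CliqueFree 3 ∧
    ¬ Packable G 1 ∧ ¬ Packable G 2 ∧ ¬ Packable G 3 :=
  ⟨Fin 14, inferInstance, G14, G14_planar, G14_cliqueFree, not_packable_1, not_packable_2,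
    not_packable_3⟩

end Pool.Agent.Helper60.Pack
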